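import Mathlib

namespace Pool.Agent.Results.MP_a62e4d_an.NotStable

open Filter Topology Finset

/-- `evol A k n = A (k+n-1) ⋯ A k` -/
def evol {𝕜 X : Type} [RCLike 𝕜] [NormedAddCommGroup X] [NormedSpace 𝕜 X] (A : ℕ → X →L[𝕜] X)
    (k : ℕ) : ℕ → X →L[𝕜] X
  | 0 => 1
  | n + 1 => A (k + n) * evol A k n

variable (𝕜 : Type) [RCLike 𝕜]

noncomputable def ev (n : ℕ) : lp (fun _ : ℕ => 𝕜) 1 →L[𝕜] 𝕜 :=
  LinearMap.mkContinuous ⟨⟨fun x => x n, fun _ _ => rfl⟩, fun _ _ => rfl⟩ 1 fun x => by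
    simpa using lp.norm_apply_le_norm one_ne_zero x n

noncomputable def A (n : ℕ) : lp (fun _ : ℕ => 𝕜) 1 →L[𝕜] lp (fun _ : ℕ => 𝕜) 1 :=
  (ev 𝕜 n).smulRight (lp.single 1 (n + 1) 1)

lemma evol_A (k n : ℕ) (x : lp (fun _ : ℕ => 𝕜) 1) :
    evol (A 𝕜) k (n + 1) x = x k • lp.single 1 (k + n + 1) 1 := by
  induction n with
  | zero => rfl
  | succ n ih =>
    rw [evol, mul_apply_eq_comp, ih, map_smul]
    congr 1
    show (lp.single 1 (k + n + 1) (1 : 𝕜) : lp (fun _ : ℕ => 𝕜) 1) (k + n + 1) •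
      (lp.single 1 (k + (n + 1) + 1) (1 : 𝕜) : lp (fun _ : ℕ => 𝕜) 1) = _
    rw [lp.single_apply_self, one_smul]

lemma norm_evol (k n : ℕ) (x : lp (fun _ : ℕ => 𝕜) 1) : ‖evol (A 𝕜) k (n + 1) x‖ = ‖x k‖ := by
  rw [evol_A, norm_smul, lp.norm_single (by simp), norm_one, mul_one]

theorem result (𝕜 : Type) [RCLike 𝕜] :
    ∃ (X : Type) (_ : NormedAddCommGroup X) (_ : NormedSpace 𝕜 X) (_ : CompleteSpace X)
      (A : ℕ → X →L[𝕜] X),
      (∃ B : ℝ, 1 ≤ B ∧ ∀ (m : ℕ) (x : X), ∑ k ∈ range (m + 1), ‖evol A k (m - k) x‖ ≤ B * ‖x‖) ∧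
      ¬ ∃ N ν : ℝ, 1 ≤ N ∧ 0 < ν ∧ ∀ m k : ℕ, k ≤ m → ∀ x : X,
        ‖evol A k (m - k) x‖ ≤ N * Real.exp (-ν * ((m : ℝ) - k)) * ‖x‖ := by
  refine ⟨lp (fun _ : ℕ => 𝕜) 1, _, _, inferInstance, A 𝕜, ⟨2, one_le_two, fun m x => ?_⟩, ?_⟩
  · rw [sum_range_succ, Nat.sub_self, two_mul]
    refine add_le_add ?_ le_rfl
    have := lp.sum_rpow_le_norm_rpow (by simp) x (range m)
    simp only [ENNReal.toReal_one, Real.rpow_one] at this
    refine le_trans (le_of_eq (sum_congr rfl fun k hk => ?_)) this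
    rw [show m - k = m - k - 1 + 1 by have := mem_range.1 hk; omega, norm_evol]
  · rintro ⟨N, ν, -, hν, h⟩
    have h1 : Tendsto (fun n : ℕ => N * Real.exp (-(ν * n))) atTop (𝓝 (N * 0)) :=
      (Real.tendsto_exp_neg_atTop_nhds_zero.comp
        (tendsto_natCast_atTop_atTop.const_mul_atTop hν)).const_mul N
    obtain ⟨n, hn, h0⟩ := ((h1.eventually (gt_mem_nhds (by simp : N * 0 < 1))).and
      (eventually_ge_atTop 1)).exists
    have := h n 0 n.zero_le (lp.single 1 0 1)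
    rw [show n - 0 = n - 1 + 1 by omega, norm_evol, lp.norm_single (by simp),
      lp.single_apply_self] at this
    simp only [norm_one, Nat.cast_zero, sub_zero, mul_one, neg_mul] at this
    linarith

end Pool.Agent.Results.MP_a62e4d_an.NotStable
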